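import Pool.Agent.W661.Nrm16

/-!
# Norming of discrete crossed products with a unique pseudo-expectation

If the inclusion of a unital C*-algebra `A` into its reduced crossed product by a discrete group has
a unique pseudo-expectation, then `A` norms the crossed product.

Idea of the proof.

* (Kishimoto's condition) Say that `g ≠ 1` satisfies `KC` if for every `a ∈ A`, `ε > 0` and every
  nonzero local algebra `Dd e = {d : e d = d = d e}` there is a positive `d ∈ Dd e` of norm one with
  `‖d a u_g d‖ < ε`. If `KC` fails, then a Hahn-Banach argument shows that all vector states given by
  unit vectors `η` in the range of a local unit `e₁`, in the GNS representation of any pure state,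
  extend to states of the crossed product which are uniformly large on `y = a u_g`. By Schur's lemma
  all the corresponding intertwiners are proportional, and the Toeplitz-Hausdorff theorem yields
  one completely positive extension `Θ` of the representation and a phase `μ` with
  `Re μ ⟨η, Θ(y) η⟩ ≥ c ‖η‖²`. Taking the direct sum over all pure states, and approximating the
  phases by finitely many ones, one gets finitely many completely positive maps
  `Θ_i : A ⋊ G → 𝓑` into an extension `𝓑` of `A`, with `Re ∑ μ_i Θ_i (d y d) ≥ (c/2) d²`.
  The pseudo-expectation being unique, a unital completely positive `Ψ : 𝓑 → I(A)` fixing `A` kills all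
  `Θ_i (d y d)`, whence `d² ≤ 0`, a contradiction.
* `KC` for all `g ≠ 1` implies norming, by a simultaneous excision argument for matrices over `A`.
-/

set_option autoImplicit false

open scoped CStarAlgebra ComplexOrder

namespace Pool.Agent.Results.MP_dbaee1_an.NormingCrossedProducts

universe u v w

open Pool.Agent.W661.Nrm

/-- **If the inclusion of `A` into the reduced crossed product `B` of `A` by the discrete group `G` has
a unique pseudo-expectation, then `A` norms `B`.** -/
theorem result {A I : Type u} {B : Type v} {G : Type w} [CStarAlgebra A] [PartialOrder A]
    [StarOrderedRing A] [CStarAlgebra I] [PartialOrder I] [StarOrderedRing I] [CStarAlgebra B]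
    [PartialOrder B] [StarOrderedRing B] [Group G] (α : G →* (A ≃⋆ₐ[ℂ] A)) (ι : A →⋆ₐ[ℂ] B)
    (u : G →* unitary B) (E : B →L[ℂ] A) (hB : IsReducedCrossedProduct α ι u E)
    (j : A →⋆ₐ[ℂ] I) (hj : IsInjectiveEnvelope j) (hunique : UniquePseudo ι j) : Norms ι :=
  norms_of_unique hB j hj.inj hj.injective fun _ _ h1 h2 => hunique.unique h1 h2

end Pool.Agent.Results.MP_dbaee1_an.NormingCrossedProducts
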